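import Pool.Agent.N422.NWS.Stm

/-! # The moments of the kernel of one site (helper97, piece MOM of the project of helper962) -/

set_option autoImplicit false

open Finset

namespace Pool.Agent.Run7.h97.NW

open Pool.Agent.N422.NW Pool.Agent.N422.NWS

/-- splitting a sum over subsets -/
theorem sum_split {α K : Type} [DecidableEq α] [AddCommMonoid K] (V D : Finset α) (h : Disjoint V D)
    (f : Finset α → K) :
    ∑ S ∈ (V ∪ D).powerset, f S = ∑ S1 ∈ V.powerset, ∑ S2 ∈ D.powerset, f (S1 ∪ S2) := by
  rw [← Finset.sum_product']
  symm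
  refine Finset.sum_nbij' (fun p => p.1 ∪ p.2) (fun S => (S ∩ V, S ∩ D)) ?_ ?_ ?_ ?_ ?_
  · rintro ⟨A, B⟩ hp
    simp only [mem_product, mem_powerset] at hp ⊢
    exact union_subset_union hp.1 hp.2
  · intro S hS
    simp only [mem_product, mem_powerset] at hS ⊢
    exact ⟨inter_subset_right, inter_subset_right⟩
  · rintro ⟨A, B⟩ hp
    simp only [mem_product, mem_powerset] at hp
    obtain ⟨hA, hB⟩ := hp
    have h1 : (A ∪ B) ∩ V = A := by
      ext x
      simp only [mem_inter, mem_union]
      constructor
      · rintro ⟨hx | hx, hV⟩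
        · exact hx
        · exact absurd (hB hx) (Finset.disjoint_left.mp h hV)
      · intro hx
        exact ⟨Or.inl hx, hA hx⟩
    have h2 : (A ∪ B) ∩ D = B := by
      ext x
      simp only [mem_inter, mem_union]
      constructor
      · rintro ⟨hx | hx, hV⟩
        · exact absurd hV (Finset.disjoint_left.mp h (hA hx))
        · exact hx
      · intro hx
        exact ⟨Or.inr hx, hB hx⟩
    simp only [h1, h2]
  · intro S hS
    rw [mem_powerset] at hS
    show S ∩ V ∪ S ∩ D = S
    rw [← inter_union_distrib_left, inter_eq_left]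
    exact hS
  · rintro ⟨A, B⟩ hp
    rfl

/-- the total mass of a product law on subsets -/
theorem mass_one {α K : Type} [DecidableEq α] [CommRing K] (D : Finset α) (u : α → K) :
    ∑ S ∈ D.powerset, ∏ i ∈ D, (if i ∈ S then u i else 1 - u i) = 1 := by
  have h := Finset.prod_add (fun i => u i) (fun i => 1 - u i) D
  simp only [add_sub_cancel, prod_const_one] at h
  refine Eq.trans (Finset.sum_congr rfl fun S hS => ?_) h.symm
  rw [mem_powerset] at hS
  rw [Finset.prod_ite]
  congr 1
  · refine Finset.prod_congr ?_ fun _ _ => rfl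
    ext x
    simp only [mem_filter]
    exact ⟨fun h => h.2, fun h => ⟨hS h, h⟩⟩
  · refine Finset.prod_congr ?_ fun _ _ => rfl
    ext x
    simp only [mem_filter, mem_sdiff]

/-- one cell -/
theorem cell_zero {α K : Type} [DecidableEq α] [CommRing K] (D : Finset α) (u : α → K) :
    ∑ S ∈ D.powerset, (∏ i ∈ D, (if i ∈ S then u i else 1 - u i)) *
      ((if S.Nonempty then 1 else 0) - (1 - ∏ i ∈ D, (1 - u i))) = 0 := by
  have h1 : ∀ S : Finset α, ((if S.Nonempty then (1 : K) else 0) - (1 - ∏ i ∈ D, (1 - u i))) =
      (∏ i ∈ D, (1 - u i)) - (if S = ∅ then 1 else 0) := by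
    intro S
    by_cases hS : S = ∅
    · simp [hS]
    · rw [if_pos (nonempty_iff_ne_empty.mpr hS), if_neg hS]
      ring
  simp only [h1, mul_sub, Finset.sum_sub_distrib, ← Finset.sum_mul]
  rw [mass_one, one_mul, sub_eq_zero]
  rw [Finset.sum_eq_single ∅]
  · simp
  · intro S _ hS
    rw [if_neg hS, mul_zero]
  · intro h
    exact absurd (empty_mem_powerset D) h

/-- the expectation of the products of centred indicators on `G ⊆ S` -/
noncomputable def Ec {K : Type} [Field K] {N m : ℕ} (win : Fin N → ℕ) (cel : Fin N → Fin m) (u : Fin N → K) (l : ℕ)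
    (p : Fin m → K) (G : Finset (Fin N)) (A : Finset (Fin m)) : K :=
  ∑ S ∈ (univ.filter (fun i => win i = l)).powerset,
    (if G ⊆ S then 1 else 0) * (mW win u l S * ee p A (S.image cel))

theorem Ec_zero {K : Type} [Field K] {N m : ℕ} (win : Fin N → ℕ) (cel : Fin N → Fin m) (u : Fin N → K) (l : ℕ)
    (p : Fin m → K) (G : Finset (Fin N)) (A : Finset (Fin m)) (c0 : Fin m) (hc : c0 ∈ A)
    (hp : p c0 = 1 - ∏ i ∈ univ.filter (fun i => win i = l ∧ cel i = c0), (1 - u i))
    (hG : ∀ i ∈ G, cel i ≠ c0) : Ec win cel u l p G A = 0 := by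
  classical
  unfold Ec mW
  set W := univ.filter (fun i : Fin N => win i = l) with hW
  set D := univ.filter (fun i : Fin N => win i = l ∧ cel i = c0) with hD
  set V := univ.filter (fun i : Fin N => win i = l ∧ cel i ≠ c0) with hV
  have hdis : Disjoint V D := by
    rw [Finset.disjoint_left]
    intro i hi hi'
    rw [hV, mem_filter] at hi
    rw [hD, mem_filter] at hi'
    exact hi.2.2 hi'.2.2
  have hun : W = V ∪ D := by
    ext i
    rw [hW, hV, hD]
    simp only [mem_union, mem_filter, mem_univ, true_and]
    tauto
  rw [hun, sum_split V D hdis]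
  refine Finset.sum_eq_zero fun S1 h1 => ?_
  rw [mem_powerset] at h1
  have key : ∀ S2 ∈ D.powerset,
      (if G ⊆ S1 ∪ S2 then (1 : K) else 0) * ((∏ i ∈ V ∪ D, if i ∈ S1 ∪ S2 then u i else 1 - u i) *
        ee p A ((S1 ∪ S2).image cel)) =
      ((if G ⊆ S1 then (1 : K) else 0) * (∏ i ∈ V, if i ∈ S1 then u i else 1 - u i) *
        ee p (A.erase c0) (S1.image cel)) * ((∏ i ∈ D, (if i ∈ S2 then u i else 1 - u i)) *
      ((if S2.Nonempty then 1 else 0) - (1 - ∏ i ∈ D, (1 - u i)))) := by
    intro S2 h2
    rw [mem_powerset] at h2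
    have e1 : (G ⊆ S1 ∪ S2) ↔ (G ⊆ S1) := by
      constructor
      · intro h i hi
        rcases mem_union.mp (h hi) with h' | h'
        · exact h'
        · have := h2 h'
          rw [hD, mem_filter] at this
          exact absurd this.2.2 (hG i hi)
      · intro h
        exact h.trans subset_union_left
    have e2 : (∏ i ∈ V ∪ D, if i ∈ S1 ∪ S2 then u i else 1 - u i) =
        (∏ i ∈ V, if i ∈ S1 then u i else 1 - u i) * (∏ i ∈ D, (if i ∈ S2 then u i else 1 - u i)) := by
      rw [Finset.prod_union hdis]
      congr 1
      · refine Finset.prod_congr rfl fun i hi => ?_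
        have : i ∉ S2 := fun h => (Finset.disjoint_left.mp hdis hi) (h2 h)
        simp only [mem_union, this, or_false]
      · refine Finset.prod_congr rfl fun i hi => ?_
        have : i ∉ S1 := fun h => (Finset.disjoint_left.mp hdis (h1 h)) hi
        simp only [mem_union, this, false_or]
    have e3 : ee p A ((S1 ∪ S2).image cel) = ((if S2.Nonempty then 1 else 0) - (1 - ∏ i ∈ D, (1 - u i))) *
        ee p (A.erase c0) (S1.image cel) := by
      unfold ee
      rw [← Finset.mul_prod_erase A _ hc]
      congr 1
      · rw [hp]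
        congr 1
        have : (c0 ∈ (S1 ∪ S2).image cel) ↔ S2.Nonempty := by
          rw [mem_image]
          constructor
          · rintro ⟨i, hi, hic⟩
            rcases mem_union.mp hi with h' | h'
            · have := h1 h'
              rw [hV, mem_filter] at this
              exact absurd hic this.2.2
            · exact ⟨i, h'⟩
          · rintro ⟨i, hi⟩
            have := h2 hi
            rw [hD, mem_filter] at this
            exact ⟨i, mem_union_right _ hi, this.2.2⟩
        simp only [this]
      · refine Finset.prod_congr rfl fun c hcA => ?_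
        have hne : c ≠ c0 := (mem_erase.mp hcA).1
        have : (c ∈ (S1 ∪ S2).image cel) ↔ c ∈ S1.image cel := by
          rw [mem_image, mem_image]
          constructor
          · rintro ⟨i, hi, hic⟩
            rcases mem_union.mp hi with h' | h'
            · exact ⟨i, h', hic⟩
            · have := h2 h'
              rw [hD, mem_filter] at this
              exact absurd (hic ▸ this.2.2) hne
          · rintro ⟨i, hi, hic⟩
            exact ⟨i, mem_union_left _ hi, hic⟩
        simp only [this]
    rw [e2, e3]
    simp only [e1]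
    ring
  rw [Finset.sum_congr rfl key, ← Finset.mul_sum, cell_zero, mul_zero]

theorem Ec_empty {K : Type} [Field K] {N m : ℕ} (win : Fin N → ℕ) (cel : Fin N → Fin m) (u : Fin N → K) (l : ℕ)
    (p : Fin m → K) : Ec win cel u l p ∅ ∅ = 1 := by
  unfold Ec mW ee
  simp only [empty_subset, if_true, one_mul, prod_empty, mul_one]
  exact mass_one _ _

/-- the sum of the density in a window -/
theorem sum_th {K : Type} [Field K] {N m : ℕ} (win : Fin N → ℕ) (cel : Fin N → Fin m) (u : Fin N → K) (l : ℕ)
    (p : Fin m → K) (G : Finset (Fin N)) (κ : K) (c : ℕ → K) (v : ℕ) (hs : Fin m → ℕ) (a : Finset (Fin m) → K) :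
    ∑ S ∈ (univ.filter (fun i => win i = l)).powerset, (if G ⊆ S then 1 else 0) *
      (mW win u l S * th κ c v hs p a (S.image cel)) =
    κ * c v * Ec win cel u l p G ∅ + ∑ A ∈ univ.erase (∅ : Finset (Fin m)), a A * c (v * sz hs A) *
      Ec win cel u l p G A := by
  unfold th Ec
  simp only [Finset.mul_sum]
  rw [Finset.sum_comm, ← Finset.sum_add_distrib]
  refine Finset.sum_congr rfl fun S _ => ?_
  have : ee p ∅ (S.image cel) = 1 := by
    unfold ee
    exact prod_empty
  rw [this, mul_add, mul_add, Finset.mul_sum, Finset.mul_sum]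
  congr 1
  · ring
  · refine Finset.sum_congr rfl fun A _ => ?_
    ring

/-- the sum over all subsets factorizes over the windows -/
theorem fact {N : ℕ} {K : Type} [CommSemiring K] (win : Fin N → ℕ) (g : ℕ → Finset (Fin N) → K) (L : ℕ) :
    ∑ T ∈ (univ.filter (fun i => win i < L)).powerset, ∏ l ∈ range L, g l (Tl win T l) =
    ∏ l ∈ range L, ∑ S ∈ (univ.filter (fun i => win i = l)).powerset, g l S := by
  induction L with
  | zero => simp
  | succ L ih =>
    have hdis : Disjoint (univ.filter (fun i => win i < L)) (univ.filter (fun i => win i = L)) := by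
      rw [Finset.disjoint_left]
      intro i hi hi'
      rw [mem_filter] at hi hi'
      omega
    have hun : univ.filter (fun i => win i < L + 1) =
        univ.filter (fun i => win i < L) ∪ univ.filter (fun i => win i = L) := by
      ext i
      simp only [mem_union, mem_filter, mem_univ, true_and]
      omega
    rw [hun, sum_split _ _ hdis, prod_range_succ, ← ih, Finset.sum_mul_sum]
    refine Finset.sum_congr rfl fun S1 h1 => Finset.sum_congr rfl fun S2 h2 => ?_
    rw [mem_powerset] at h1 h2
    rw [prod_range_succ]
    congr 1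
    · refine Finset.prod_congr rfl fun l hl => ?_
      rw [mem_range] at hl
      congr 1
      unfold Tl
      ext i
      simp only [mem_filter, mem_union]
      constructor
      · rintro ⟨h | h, hw⟩
        · exact ⟨h, hw⟩
        · have := h2 h
          rw [mem_filter] at this
          omega
      · rintro ⟨h, hw⟩
        exact ⟨Or.inl h, hw⟩
    · congr 1
      unfold Tl
      ext i
      simp only [mem_filter, mem_union]
      constructor
      · rintro ⟨h | h, hw⟩
        · have := h1 h
          rw [mem_filter] at this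
          omega
        · exact h
      · intro h
        have := h2 h
        rw [mem_filter] at this
        exact ⟨Or.inr h, this.2⟩

/-- `z^e f(z)` is a polynomial -/
def Pol (e : ℕ) (f : ℂ → ℂ) : Prop := ∃ P : Polynomial ℂ, ∀ z : ℂ, z ≠ 0 → P.eval z = z ^ e * f z

theorem Pol.const (e : ℕ) (c : ℂ) : Pol e (fun _ => c) :=
  ⟨Polynomial.X ^ e * Polynomial.C c, fun z _ => by
    rw [Polynomial.eval_mul, Polynomial.eval_pow, Polynomial.eval_X, Polynomial.eval_C]⟩

theorem Pol.add {e : ℕ} {f g : ℂ → ℂ} (hf : Pol e f) (hg : Pol e g) : Pol e (fun z => f z + g z) := by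
  obtain ⟨P, hP⟩ := hf
  obtain ⟨Q, hQ⟩ := hg
  exact ⟨P + Q, fun z hz => by rw [Polynomial.eval_add, hP z hz, hQ z hz, mul_add]⟩

theorem Pol.mulc {e : ℕ} {f : ℂ → ℂ} (hf : Pol e f) (c : ℂ) : Pol e (fun z => f z * c) := by
  obtain ⟨P, hP⟩ := hf
  exact ⟨P * Polynomial.C c, fun z hz => by rw [Polynomial.eval_mul, hP z hz, Polynomial.eval_C, mul_assoc]⟩

theorem Pol.sum {ι : Type} {e : ℕ} (s : Finset ι) (f : ι → ℂ → ℂ) (hf : ∀ i ∈ s, Pol e (f i)) :
    Pol e (fun z => ∑ i ∈ s, f i z) := by
  classical
  induction s using Finset.induction_on with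
  | empty => simpa using Pol.const e 0
  | insert i s hi ih =>
    have h1 := (hf i (mem_insert_self _ _)).add (ih fun j hj => hf j (mem_insert_of_mem hj))
    simpa only [Finset.sum_insert hi] using h1

theorem Pol.prod {ι : Type} (s : Finset ι) (e : ι → ℕ) (f : ι → ℂ → ℂ) (hf : ∀ i ∈ s, Pol (e i) (f i)) :
    Pol (∑ i ∈ s, e i) (fun z => ∏ i ∈ s, f i z) := by
  classical
  induction s using Finset.induction_on with
  | empty => simpa using Pol.const 0 1
  | insert i s hi ih =>
    obtain ⟨P, hP⟩ := hf i (mem_insert_self _ _)
    obtain ⟨Q, hQ⟩ := ih fun j hj => hf j (mem_insert_of_mem hj)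
    refine ⟨P * Q, fun z hz => ?_⟩
    have h2 : Q.eval z = z ^ (∑ j ∈ s, e j) * ∏ j ∈ s, f j z := hQ z hz
    show (P * Q).eval z = z ^ (∑ j ∈ insert i s, e j) * ∏ j ∈ insert i s, f j z
    rw [Finset.sum_insert hi, Finset.prod_insert hi, Polynomial.eval_mul, hP z hz, h2, pow_add]
    ring

theorem Pol.cz (t : ℝ) {x e : ℕ} (h : x ≤ e) : Pol e (fun z => cz t x z) := by
  refine ⟨Polynomial.C (Real.cosh (x * t) : ℂ) * Polynomial.X ^ e -
    Polynomial.C (1 / 2) * (Polynomial.X ^ (e + x) + Polynomial.X ^ (e - x)), fun z hz => ?_⟩
  simp only [Polynomial.eval_sub, Polynomial.eval_mul, Polynomial.eval_C, Polynomial.eval_pow, Polynomial.eval_X,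
    Polynomial.eval_add]
  unfold N422.NWS.cz
  have h1 : z ^ e * z⁻¹ ^ x = z ^ (e - x) := by
    rw [pow_sub₀ z hz h, inv_pow]
  rw [← h1, pow_add]
  ring

theorem mW_Tl {K : Type} [Field K] {N : ℕ} (win : Fin N → ℕ) (u : Fin N → K) (l : ℕ) (T : Finset (Fin N)) :
    mW win u l T = mW win u l (Tl win T l) := by
  unfold mW Tl
  refine Finset.prod_congr rfl fun i hi => ?_
  rw [mem_filter] at hi
  simp only [mem_filter, hi.2, and_true]

theorem ind_prod {N L : ℕ} (win : Fin N → ℕ) (hwin : ∀ i, win i < L) (F T : Finset (Fin N)) :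
    (if F ⊆ T then (1 : ℂ) else 0) = ∏ l ∈ range L, if Tl win F l ⊆ Tl win T l then (1 : ℂ) else 0 := by
  by_cases h : F ⊆ T
  · rw [if_pos h]
    symm
    refine Finset.prod_eq_one fun l _ => if_pos ?_
    exact Finset.filter_subset_filter _ h
  · rw [if_neg h]
    obtain ⟨i, hi, hiT⟩ := Finset.not_subset.mp h
    symm
    refine Finset.prod_eq_zero (mem_range.mpr (hwin i)) (if_neg fun h' => ?_)
    have : i ∈ Tl win F (win i) := mem_filter.mpr ⟨hi, rfl⟩
    exact hiT (mem_filter.mp (h' this)).1

/-- the moments of the kernel of one site -/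
theorem t_MOM : S_MOM := by
  intro N m L win cel u t κ v hs a hhs hwin
  constructor
  · intro T F
    set uc : Fin N → ℂ := fun i => (u i : ℂ) with huc
    set θ : ℂ → ℕ → Finset (Fin m) → ℂ := fun z l X => th (κ : ℂ) (fun x => cz t x z) (v l) hs
      (fun c => (pc win cel u l c : ℂ)) (fun A => (a l A : ℂ)) X with hθ
    have hp : ∀ l c, ((pc win cel u l c : ℝ) : ℂ) =
        1 - ∏ i ∈ univ.filter (fun i => win i = l ∧ cel i = c), (1 - uc i) := by
      intro l c
      unfold pc
      push_cast
      rfl
    have hloc : ∀ l ∈ range L, Pol (∑ i ∈ F.filter (fun i => win i = l), v (win i) * hs (cel i)) (fun z =>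
        ∑ S ∈ (univ.filter (fun i => win i = l)).powerset, (if Tl win F l ⊆ S then (1 : ℂ) else 0) *
        (if (∀ i ∈ T, l ≤ win i) then (1 - (κ : ℂ) * cz t (v l) z) * (if S = Tl win T l then 1 else 0) +
          mW win uc l S * θ z l (S.image cel) else (if S = Tl win T l then 1 else 0))) := by
      intro l _
      have hTl : Tl win T l ∈ (univ.filter (fun i => win i = l)).powerset := by
        rw [mem_powerset]
        intro i hi
        rw [Tl, mem_filter] at hi
        exact mem_filter.mpr ⟨mem_univ _, hi.2⟩
      have hsum1 : ∑ S ∈ (univ.filter (fun i => win i = l)).powerset, (if Tl win F l ⊆ S then (1 : ℂ) else 0) *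
          (if S = Tl win T l then 1 else 0) = if Tl win F l ⊆ Tl win T l then 1 else 0 := by
        rw [Finset.sum_eq_single (Tl win T l)]
        · simp
        · intro S _ hS
          rw [if_neg hS, mul_zero]
        · intro h
          exact absurd hTl h
      by_cases hT : ∀ i ∈ T, l ≤ win i
      · simp only [if_pos hT]
        have hrew : ∀ z : ℂ, ∑ S ∈ (univ.filter (fun i => win i = l)).powerset,
            (if Tl win F l ⊆ S then (1 : ℂ) else 0) * ((1 - (κ : ℂ) * cz t (v l) z) *
              (if S = Tl win T l then 1 else 0) + mW win uc l S * θ z l (S.image cel)) =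
            (if Tl win F l ⊆ Tl win T l then 1 else 0) * (1 - (κ : ℂ) * cz t (v l) z) +
            ((κ : ℂ) * cz t (v l) z * Ec win cel uc l (fun c => (pc win cel u l c : ℂ)) (Tl win F l) ∅ +
              ∑ A ∈ univ.erase (∅ : Finset (Fin m)), (a l A : ℂ) * cz t (v l * sz hs A) z *
              Ec win cel uc l (fun c => (pc win cel u l c : ℂ)) (Tl win F l) A) := by
          intro z
          rw [← hsum1, ← sum_th win cel uc l (fun c => (pc win cel u l c : ℂ)) (Tl win F l) (κ : ℂ)
            (fun x => cz t x z) (v l) hs (fun A => (a l A : ℂ)), Finset.sum_mul, ← Finset.sum_add_distrib]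
          refine Finset.sum_congr rfl fun S _ => ?_
          simp only [hθ]
          ring
        simp only [hrew]
        by_cases hF : Tl win F l = ∅
        · have hA : ∀ z : ℂ, ∑ A ∈ univ.erase (∅ : Finset (Fin m)), (a l A : ℂ) * cz t (v l * sz hs A) z *
              Ec win cel uc l (fun c => (pc win cel u l c : ℂ)) (Tl win F l) A = 0 := by
            intro z
            refine Finset.sum_eq_zero fun A hA => ?_
            obtain ⟨c0, hc0⟩ := nonempty_iff_ne_empty.mpr (mem_erase.mp hA).1
            rw [Ec_zero win cel uc l _ _ A c0 hc0 (hp l c0), mul_zero]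
            intro i hi
            rw [hF] at hi
            exact absurd hi (notMem_empty i)
          simp only [hA]
          rw [hF]
          simp only [Ec_empty, empty_subset, if_true]
          have : (fun z : ℂ => 1 * (1 - (κ : ℂ) * cz t (v l) z) + ((κ : ℂ) * cz t (v l) z * 1 + 0)) =
              fun _ => (1 : ℂ) := by
            funext z
            ring
          rw [this]
          exact Pol.const _ 1
        · obtain ⟨i0, hi0⟩ := nonempty_iff_ne_empty.mpr hF
          set e := ∑ i ∈ F.filter (fun i => win i = l), v (win i) * hs (cel i) with he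
          have he' : e = v l * ∑ i ∈ Tl win F l, hs (cel i) := by
            rw [he, Finset.mul_sum]
            unfold Tl
            refine Finset.sum_congr rfl fun i hi => ?_
            rw [(mem_filter.mp hi).2]
          have hv : v l ≤ e := by
            rw [he']
            refine Nat.le_mul_of_pos_right _ ?_
            exact lt_of_lt_of_le (hhs (cel i0)) (Finset.single_le_sum (f := fun i => hs (cel i))
              (fun _ _ => Nat.zero_le _) hi0)
          have h1 : Pol e (fun z => (if Tl win F l ⊆ Tl win T l then 1 else 0) * (1 - (κ : ℂ) * cz t (v l) z)) := by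
            have := ((Pol.const e 1).add ((Pol.cz t hv).mulc (-(κ : ℂ)))).mulc
              (if Tl win F l ⊆ Tl win T l then 1 else 0)
            refine Eq.mp ?_ this
            congr 1
            funext z
            ring
          have h2 : Pol e (fun z => (κ : ℂ) * cz t (v l) z *
              Ec win cel uc l (fun c => (pc win cel u l c : ℂ)) (Tl win F l) ∅) := by
            have := (Pol.cz t hv).mulc ((κ : ℂ) * Ec win cel uc l (fun c => (pc win cel u l c : ℂ)) (Tl win F l) ∅)
            refine Eq.mp ?_ this
            congr 1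
            funext z
            ring
          have h3 : Pol e (fun z => ∑ A ∈ univ.erase (∅ : Finset (Fin m)), (a l A : ℂ) * cz t (v l * sz hs A) z *
              Ec win cel uc l (fun c => (pc win cel u l c : ℂ)) (Tl win F l) A) := by
            refine Pol.sum _ _ fun A _ => ?_
            by_cases hA : A ⊆ (Tl win F l).image cel
            · have hle : v l * sz hs A ≤ e := by
                rw [he']
                refine Nat.mul_le_mul_left _ ?_
                unfold sz
                refine (Finset.sum_le_sum_of_subset hA).trans ?_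
                exact Finset.sum_image_le_of_nonneg (f := hs) (fun _ _ => Nat.zero_le _)
              have := (Pol.cz t hle).mulc ((a l A : ℂ) *
                Ec win cel uc l (fun c => (pc win cel u l c : ℂ)) (Tl win F l) A)
              refine Eq.mp ?_ this
              congr 1
              funext z
              ring
            · obtain ⟨c0, hc0, hc1⟩ := Finset.not_subset.mp hA
              have hz : Ec win cel uc l (fun c => (pc win cel u l c : ℂ)) (Tl win F l) A = 0 := by
                refine Ec_zero win cel uc l _ _ A c0 hc0 (hp l c0) fun i hi hic => hc1 ?_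
                exact mem_image.mpr ⟨i, hi, hic⟩
              simp only [hz, mul_zero]
              exact Pol.const e 0
          exact h1.add (h2.add h3)
      · simp only [if_neg hT]
        simp only [hsum1]
        exact Pol.const _ _
    obtain ⟨P, hP⟩ := Pol.prod (range L) _ _ hloc
    refine ⟨P, fun z hz => ?_⟩
    rw [hP z hz]
    congr 1
    · congr 1
      exact Finset.sum_fiberwise_of_maps_to (fun i _ => mem_range.mpr (hwin i)) _
    · beta_reduce
      rw [← fact win (fun l S => (if Tl win F l ⊆ S then (1 : ℂ) else 0) *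
        (if (∀ i ∈ T, l ≤ win i) then (1 - (κ : ℂ) * cz t (v l) z) * (if S = Tl win T l then 1 else 0) +
          mW win uc l S * θ z l (S.image cel) else (if S = Tl win T l then 1 else 0))) L]
      have huniv : (univ.filter (fun i => win i < L)).powerset = (univ : Finset (Finset (Fin N))) := by
        rw [Finset.filter_true_of_mem (fun i _ => hwin i), Finset.powerset_univ]
      rw [huniv, Finset.sum_filter]
      refine Finset.sum_congr rfl fun T' _ => ?_
      rw [Finset.prod_mul_distrib, ← ind_prod win hwin F T']
      unfold KW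
      split_ifs with h
      · rw [one_mul]
        refine Finset.prod_congr rfl fun l _ => ?_
        rw [mW_Tl win uc l T']
      · rw [zero_mul]
  · intro l c
    have h := sum_th win cel u l (pc win cel u l) ∅ κ c (v l) hs (a l)
    simp only [empty_subset, if_true, one_mul] at h
    rw [h, Ec_empty, mul_one, Finset.sum_eq_zero, add_zero]
    intro A hA
    obtain ⟨c0, hc0⟩ := nonempty_iff_ne_empty.mpr (mem_erase.mp hA).1
    rw [Ec_zero win cel u l _ _ A c0 hc0 rfl (fun i hi => absurd hi (notMem_empty i)), mul_zero]

end Pool.Agent.Run7.h97.NW
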